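import Pool.Agent.helper23.CU.SpecE

/-!
# Project cu, module HI: sum over the columns
-/

open Finset Filter Topology

namespace CU

section

variable {n : ℕ} [NeZero n]

/-- the site with `k`-th coordinate `c` and other coordinate `l` -/
def HI_pt (k : Fin 2) (c l : ZMod n) : Site 2 n := fun i => if i = k then c else l

theorem HI_ne (k : Fin 2) : (1 : Fin 2) - k ≠ k := by
  fin_cases k <;> decide

theorem HI_cases (k i : Fin 2) : i = k ∨ i = 1 - k := by
  fin_cases k <;> fin_cases i <;> decide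

theorem HI_pt_k (k : Fin 2) (c l : ZMod n) : HI_pt k c l k = c := by simp [HI_pt]

theorem HI_pt_k' (k : Fin 2) (c l : ZMod n) : HI_pt k c l (1 - k) = l := by
  simp [HI_pt, HI_ne k]

theorem HI_pt_step (k : Fin 2) (c l : ZMod n) :
    HI_pt k c (l + 1) = HI_pt k c l + ev (1 - k) := by
  funext i
  rcases HI_cases k i with h | h
  · subst h
    rw [Pi.add_apply, HI_pt_k, HI_pt_k, ev, Pi.single_eq_of_ne (HI_ne i).symm, add_zero]
  · subst h
    rw [Pi.add_apply, HI_pt_k', HI_pt_k', ev, Pi.single_eq_same]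

theorem HI_pt_surj (k : Fin 2) (y : Site 2 n) : HI_pt k (y k) (y (1 - k)) = y := by
  funext i
  rcases HI_cases k i with h | h
  · subst h; rw [HI_pt_k]
  · subst h; rw [HI_pt_k']

theorem HI_ExD (b : ℝ) (D : Finset (Site 2 n)) (f : Conf 2 n → ℝ) : ExD b D f = EG b D ∅ f := by
  unfold ExD EG ZG W
  simp only [← Finset.bot_eq_empty, symmDiff_bot]

theorem HI_plus (b : ℝ) (D : Finset (Site 2 n)) (γ : Finset (Edge 2 n)) (x : Site 2 n)
    (hx : x ∉ D) : EG b D γ (fun σ => sg (σ x)) = 1 := by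
  unfold EG
  have h1 : ∑ σ ∈ PlusOn D, Real.exp (-2 * b * ((symmDiff (brk σ) γ).card : ℝ)) * sg (σ x) =
      ZG b D γ := by
    unfold ZG
    refine Finset.sum_congr rfl fun σ hσ => ?_
    have h2 : σ x = true := (Finset.mem_filter.1 hσ).2 x hx
    rw [h2]
    simp [sg]
  rw [h1]
  refine div_self ?_
  unfold ZG
  refine (Finset.sum_pos (fun σ _ => Real.exp_pos _) ⟨plus, ?_⟩).ne'
  rw [PlusOn, Finset.mem_filter]
  exact ⟨Finset.mem_univ _, fun _ _ => rfl⟩

end

theorem HI (hG : HG_stmt) (hB : HB_stmt) (hH : HH_stmt) : HI_stmt := by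
  intro n r _ hn b m hb hm u v w γ hγ hbd hv hw hM k hle
  set D := DS r u with hD
  set A := (v k - u k).valMinAbs with hA
  set B := (w k - u k).valMinAbs with hBd
  have hv' : Near r u v := (Finset.mem_filter.1 hv).2
  have hw' : Near r u w := (Finset.mem_filter.1 hw).2
  have hAr : A.natAbs ≤ r := hv' k
  have hBr : B.natAbs ≤ r := hw' k
  set T : Edge 2 n → ℝ := fun e => EG b D ∅ (ed e) - sgn γ e * EG b D γ (ed e) with hT
  set M : Site 2 n → ℝ := fun x => EG b D ∅ (fun σ => sg (σ x)) with hMd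
  set M' : Site 2 n → ℝ := fun x => EG b D γ (fun σ => sg (σ x)) with hMd'
  have hMm : ∀ x, m ≤ M x := by
    intro x
    have := hM x
    rwa [HI_ExD] at this
  have hpair : ∀ e : Edge 2 n,
      |M e.1 * M' (e.1 + ev e.2) - sgn γ e * M (e.1 + ev e.2) * M' e.1| ≤ T e := fun e =>
    hB 2 n b hb D γ e
  have hT0 : ∀ e, 0 ≤ T e := fun e => (abs_nonneg _).trans (hpair e)
  -- one column
  have hcol : ∀ j ∈ Finset.Ioc A B,
      2 * m ^ 2 ≤ ∑ l : ZMod n, T (HI_pt k (u k + (j : ZMod n)) l, 1 - k) := by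
    intro j hj
    rw [Finset.mem_Ioc] at hj
    set c : ZMod n := u k + (j : ZMod n) with hc
    set S : Finset (ZMod n) := Finset.univ.filter fun l => (HI_pt k c l, 1 - k) ∈ γ with hS
    have h1 := hG n r hn u v w γ hγ hbd hv hw k j hj.1 hj.2
    have hodd : Odd S.card := by
      rw [Finset.sum_boole] at h1
      have h2 : (Finset.univ.filter fun y : Site 2 n => y k = c ∧ (y, 1 - k) ∈ γ).card = S.card := by
        symm
        refine Finset.card_bij (fun l _ => HI_pt k c l) ?_ ?_ ?_
        · intro l hl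
          rw [Finset.mem_filter] at hl ⊢
          exact ⟨Finset.mem_univ _, HI_pt_k k c l, hl.2⟩
        · intro l _ l' _ h
          have h3 := congrFun h (1 - k)
          rwa [HI_pt_k', HI_pt_k'] at h3
        · intro y hy
          rw [Finset.mem_filter] at hy
          refine ⟨y (1 - k), ?_, ?_⟩
          · rw [Finset.mem_filter]
            refine ⟨Finset.mem_univ _, ?_⟩
            have h3 := HI_pt_surj k y
            rw [hy.2.1] at h3
            rw [h3]
            exact hy.2.2
          · have h3 := HI_pt_surj k y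
            rw [hy.2.1] at h3
            exact h3
      rw [h2] at h1
      exact (ZMod.natCast_eq_one_iff_odd).1 h1
    set a : ZMod n → ℝ := fun l => M' (HI_pt k c l) / M (HI_pt k c l) with ha
    set s : ZMod n → ℝ := fun l => if l ∈ S then -1 else 1 with hs
    have hex : ∃ l₀, a l₀ = 1 := by
      refine ⟨u (1 - k) + ((r + 1 : ℕ) : ZMod n), ?_⟩
      have hnot : HI_pt k c (u (1 - k) + ((r + 1 : ℕ) : ZMod n)) ∉ D := by
        intro h
        rw [hD, DS, Finset.mem_filter] at h
        have h3 : Near r u (HI_pt k c (u (1 - k) + ((r + 1 : ℕ) : ZMod n))) :=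
          (Finset.mem_filter.1 h.2.1).2
        have h4 := h3 (1 - k)
        rw [HI_pt_k', add_sub_cancel_left, ZMod.valMinAbs_natCast_of_le_half (by omega)] at h4
        omega
      rw [ha]
      dsimp only
      rw [hMd, hMd']
      dsimp only
      rw [HI_plus b D γ _ hnot, HI_plus b D ∅ _ hnot, div_one]
    have h5 := hH n a s S (fun l => rfl) hodd hex
    calc 2 * m ^ 2 ≤ m ^ 2 * ∑ l, |a (l + 1) - s l * a l| := by nlinarith [sq_nonneg m]
      _ = ∑ l, m ^ 2 * |a (l + 1) - s l * a l| := by rw [Finset.mul_sum]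
      _ ≤ ∑ l : ZMod n, T (HI_pt k c l, 1 - k) := by
        refine Finset.sum_le_sum fun l _ => ?_
        refine le_trans ?_ (hpair (HI_pt k c l, 1 - k))
        dsimp only
        rw [← HI_pt_step]
        have h6 : sgn γ (HI_pt k c l, 1 - k) = s l := by
          rw [sgn, hs]
          dsimp only
          by_cases h7 : (HI_pt k c l, 1 - k) ∈ γ
          · rw [if_pos h7, if_pos]
            rw [hS, Finset.mem_filter]
            exact ⟨Finset.mem_univ _, h7⟩
          · rw [if_neg h7, if_neg]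
            rw [hS, Finset.mem_filter]
            exact fun h8 => h7 h8.2
        rw [h6]
        have hp1 : 0 < M (HI_pt k c l) := lt_of_lt_of_le hm (hMm _)
        have hp2 : 0 < M (HI_pt k c (l + 1)) := lt_of_lt_of_le hm (hMm _)
        have h7 : M (HI_pt k c l) * M' (HI_pt k c (l + 1)) -
            s l * M (HI_pt k c (l + 1)) * M' (HI_pt k c l) =
            M (HI_pt k c l) * M (HI_pt k c (l + 1)) * (a (l + 1) - s l * a l) := by
          rw [ha]
          dsimp only
          field_simp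
        rw [h7, abs_mul, abs_of_pos (mul_pos hp1 hp2)]
        refine mul_le_mul_of_nonneg_right ?_ (abs_nonneg _)
        rw [pow_two]
        exact mul_le_mul (hMm _) (hMm _) hm.le hp1.le
  -- all columns
  have hinj : Set.InjOn (fun q : ℤ × ZMod n => ((HI_pt k (u k + (q.1 : ZMod n)) q.2, 1 - k) : Edge 2 n))
      (Finset.Ioc A B ×ˢ (Finset.univ : Finset (ZMod n)) : Finset (ℤ × ZMod n)) := by
    rintro ⟨j, l⟩ hj ⟨j', l'⟩ hj' h
    rw [Finset.mem_coe, Finset.mem_product, Finset.mem_Ioc] at hj hj'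
    simp only [Prod.mk.injEq, and_true] at h
    have h1 := congrFun h k
    have h2 := congrFun h (1 - k)
    rw [HI_pt_k, HI_pt_k] at h1
    rw [HI_pt_k', HI_pt_k'] at h2
    have h3 : (j : ZMod n) = (j' : ZMod n) := add_left_cancel h1
    rw [ZMod.intCast_eq_intCast_iff_dvd_sub] at h3
    have h4 : j' - j = 0 := by
      apply Int.eq_zero_of_abs_lt_dvd h3
      rw [abs_lt]
      obtain ⟨⟨h5, h6⟩, -⟩ := hj
      obtain ⟨⟨h7, h8⟩, -⟩ := hj'
      dsimp only at h5 h6 h7 h8
      constructor <;> omega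
    rw [h2, show j = j' by omega]
  calc 2 * m ^ 2 * ((B - A : ℤ) : ℝ) = ∑ j ∈ Finset.Ioc A B, 2 * m ^ 2 := by
        rw [Finset.sum_const, Int.card_Ioc, nsmul_eq_mul, mul_comm]
        congr 1
        have : (((B - A).toNat : ℕ) : ℤ) = B - A := Int.toNat_of_nonneg (by omega)
        exact_mod_cast congrArg (Int.cast : ℤ → ℝ) this.symm
    _ ≤ ∑ j ∈ Finset.Ioc A B, ∑ l : ZMod n, T (HI_pt k (u k + (j : ZMod n)) l, 1 - k) :=
        Finset.sum_le_sum hcol
    _ = ∑ q ∈ Finset.Ioc A B ×ˢ (Finset.univ : Finset (ZMod n)),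
          T (HI_pt k (u k + (q.1 : ZMod n)) q.2, 1 - k) := by
        rw [Finset.sum_product]
    _ = ∑ e ∈ (Finset.Ioc A B ×ˢ (Finset.univ : Finset (ZMod n))).image
          (fun q : ℤ × ZMod n => ((HI_pt k (u k + (q.1 : ZMod n)) q.2, 1 - k) : Edge 2 n)), T e := by
        rw [Finset.sum_image hinj]
    _ ≤ ∑ e : Edge 2 n, T e :=
        Finset.sum_le_sum_of_subset_of_nonneg (Finset.subset_univ _) fun e _ _ => hT0 e

end CU
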