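import Pool.Agent.helper23.CU.SpecE

/-!
# Project cu, module HJ: decay of the dual two point function in a box
-/

open Finset Filter Topology

namespace CU

section

variable {d n : ℕ} [NeZero n]

theorem HJ_pos (b : ℝ) (D : Finset (Site d n)) (γ : Finset (Edge d n)) : 0 < ZG b D γ := by
  unfold ZG
  refine Finset.sum_pos (fun σ _ => Real.exp_pos _) ⟨plus, ?_⟩
  rw [PlusOn, Finset.mem_filter]
  exact ⟨Finset.mem_univ _, fun _ _ => rfl⟩

end

theorem HJ (hA : HA_stmt) (hC : HC_stmt) (hI : HI_stmt) (hF : HF_stmt) (hR : RA_stmt) : HJ_stmt := by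
  classical
  intro β₁ β m h0 h1 hm hM n r hn u w hw k
  set F := FS r u with hFd
  by_cases hex : ∃ γ ⊆ F, bd γ = src u w
  swap
  · have hz : Zs F (src u w) (Real.exp (-2 * β)) = 0 := by
      unfold Zs
      refine Finset.sum_eq_zero fun η hη => ?_
      simp only [Finset.mem_filter] at hη
      exact absurd ⟨η, Finset.mem_powerset.1 hη.1, hη.2⟩ hex
    rw [corr, hz, zero_div]
    exact (Real.exp_pos _).le
  obtain ⟨γ, hγ, hbd⟩ := hex
  set D := DS r u with hD
  have hA1 : ∀ b : ℝ, Zs F (src u w) (Real.exp (-2 * b)) = ZG b D γ := by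
    intro b
    rw [← hbd]
    exact hA (n + 3) r (by omega) u γ hγ b
  have hA2 : ∀ b : ℝ, Zs F 0 (Real.exp (-2 * b)) = ZG b D ∅ := by
    intro b
    have h2 := hA (n + 3) r (by omega) u ∅ (Finset.empty_subset _) b
    have h3 : bd (∅ : Finset (Edge 2 (n + 3))) = 0 := by
      funext v
      simp [bd]
    rwa [h3] at h2
  set φ : ℝ → ℝ := fun b => Real.log (ZG b D γ) - Real.log (ZG b D ∅) with hφ
  have hder := fun b => hC 2 (n + 3) D γ b
  have huu : u ∈ Box r u := by
    rw [Box, Finset.mem_filter]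
    refine ⟨Finset.mem_univ _, fun i => ?_⟩
    rw [sub_self]
    simp
  have hbound : ∀ b : ℝ, β₁ ≤ b → 2 * m ^ 2 * ((w k - u k).valMinAbs.natAbs : ℝ) ≤
      ∑ e : Edge 2 (n + 3), (EG b D ∅ (ed e) - sgn γ e * EG b D γ (ed e)) := by
    intro b hb
    have hMx := hF β₁ m h0 hM b hb n r hn u
    have hz : (u k - u k).valMinAbs = 0 := by rw [sub_self]; simp
    rcases le_total 0 (w k - u k).valMinAbs with h | h
    · have h2 := hI (n + 3) r (by omega) b m (h0.trans hb) hm u u w γ hγ hbd huu hw hMx k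
        (by rw [hz]; exact h)
      rw [hz, sub_zero] at h2
      have h3 : ((w k - u k).valMinAbs.natAbs : ℝ) = (((w k - u k).valMinAbs : ℤ) : ℝ) := by
        rw [← Int.cast_natCast, Int.natAbs_of_nonneg h]
      rw [h3]
      exact h2
    · have hbd' : bd γ = src w u := by
        rw [hbd]
        funext v
        simp only [src]
        rw [add_comm]
      have h2 := hI (n + 3) r (by omega) b m (h0.trans hb) hm u w u γ hγ hbd' hw huu hMx k
        (by rw [hz]; exact h)
      rw [hz, zero_sub] at h2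
      have h3 : ((w k - u k).valMinAbs.natAbs : ℝ) = ((-(w k - u k).valMinAbs : ℤ) : ℝ) := by
        rw [← Int.cast_natCast, Int.ofNat_natAbs_of_nonpos h]
      rw [h3]
      exact h2
  set C : ℝ := -(2 * m ^ 2 * ((w k - u k).valMinAbs.natAbs : ℝ)) with hCd
  have hmvt : φ β - φ β₁ ≤ C * (β - β₁) := by
    refine Convex.image_sub_le_mul_sub_of_deriv_le (convex_Ici β₁)
      (fun b _ => (hder b).continuousAt.continuousWithinAt)
      (fun b _ => (hder b).differentiableAt.differentiableWithinAt) ?_ β₁ Set.self_mem_Ici β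
      h1.le h1.le
    intro b hb
    rw [interior_Ici, Set.mem_Ioi] at hb
    rw [(hder b).deriv, hCd]
    exact neg_le_neg (hbound b hb.le)
  have hφ1 : φ β₁ ≤ 0 := by
    rw [hφ]
    dsimp only
    rw [sub_nonpos]
    exact Real.log_le_log (HJ_pos _ _ _) (hR 2 (n + 3) β₁ h0 D γ)
  have hfin : φ β ≤ -(2 * m ^ 2 * (β - β₁) * ((w k - u k).valMinAbs.natAbs : ℝ)) := by
    have h2 : C * (β - β₁) = -(2 * m ^ 2 * (β - β₁) * ((w k - u k).valMinAbs.natAbs : ℝ)) := by
      rw [hCd]
      ring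
    linarith
  rw [corr, hA1, hA2]
  have h5 : ZG β D γ / ZG β D ∅ = Real.exp (φ β) := by
    rw [hφ]
    dsimp only
    rw [Real.exp_sub, Real.exp_log (HJ_pos _ _ _), Real.exp_log (HJ_pos _ _ _)]
  rw [h5]
  exact Real.exp_le_exp.2 hfin

end CU
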